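import Mathlib

/-!
# Average shadowing and factors: definitions and block decomposition
-/

set_option autoImplicit false

namespace Pool.Agent.R292.AvgShadow

open Filter Topology Finset

/-- `(x_i)` is a `δ`-average-pseudo-orbit of `f`: there is `N` such that for all `n ≥ N` and all
`k`, `(1/n) ∑_{i<n} d(f(x_{i+k}), x_{i+k+1}) < δ`. -/
def IsAveragePseudoOrbit {X : Type*} [MetricSpace X] (f : X → X) (δ : ℝ) (x : ℕ → X) : Prop :=
  ∃ N : ℕ, ∀ n ≥ N, ∀ k : ℕ,
    (∑ i ∈ range n, dist (f (x (i + k))) (x (i + k + 1))) / n < δ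

/-- `(x_i)` is `ε`-shadowed in average by `z`:
`limsup (1/n) ∑_{i<n} d(f^i(z), x_i) < ε`. -/
def ShadowedInAverage {X : Type*} [MetricSpace X] (f : X → X) (ε : ℝ) (x : ℕ → X) (z : X) :
    Prop :=
  limsup (fun n : ℕ => (∑ i ∈ range n, dist (f^[i] z) (x i)) / n) atTop < ε

/-- The average shadowing property. -/
def AverageShadowing {X : Type*} [MetricSpace X] (f : X → X) : Prop :=
  ∀ ε : ℝ, 0 < ε → ∃ δ : ℝ, 0 < δ ∧ ∀ x : ℕ → X, IsAveragePseudoOrbit f δ x →
    ∃ z : X, ShadowedInAverage f ε x z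

/-- The asymptotic average shadowing property. -/
def AsymptoticAverageShadowing {X : Type*} [MetricSpace X] (f : X → X) : Prop :=
  ∀ x : ℕ → X,
    Tendsto (fun n : ℕ => (∑ i ∈ range n, dist (f (x i)) (x (i + 1))) / n) atTop (𝓝 0) →
    ∃ z : X, Tendsto (fun n : ℕ => (∑ i ∈ range n, dist (f^[i] z) (x i)) / n) atTop (𝓝 0)

section basics

variable {X Y : Type*} [MetricSpace X] [CompactSpace X] [MetricSpace Y] [CompactSpace Y]

lemma exists_diam (X : Type*) [MetricSpace X] [CompactSpace X] :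
    ∃ D : ℝ, 0 < D ∧ ∀ a b : X, dist a b ≤ D := by
  obtain ⟨D, hD⟩ := Metric.isBounded_iff.1 (isCompact_univ (X := X)).isBounded
  exact ⟨max D 1, lt_max_of_lt_right one_pos,
    fun a b => le_max_of_le_left (hD (Set.mem_univ a) (Set.mem_univ b))⟩

/-- Uniform continuity in additive form. -/
lemma exists_lin (π : X → Y) (hπ : Continuous π) {ε : ℝ} (hε : 0 < ε) :
    ∃ C : ℝ, 0 ≤ C ∧ ∀ a b : X, dist (π a) (π b) ≤ ε + C * dist a b := by
  obtain ⟨D, hD0, hD⟩ := exists_diam Y
  have huc := CompactSpace.uniformContinuous_of_continuous hπ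
  obtain ⟨η, hη, h⟩ := Metric.uniformContinuous_iff.1 huc ε hε
  refine ⟨D / η, by positivity, fun a b => ?_⟩
  by_cases hab : dist a b < η
  · have h1 := (h hab).le
    have h2 : 0 ≤ D / η * dist a b := by positivity
    linarith
  · push Not at hab
    have h1 : D ≤ D / η * dist a b := by
      rw [div_mul_eq_mul_div, le_div_iff₀ hη]
      exact mul_le_mul_of_nonneg_left hab hD0.le
    linarith [hD (π a) (π b)]

/-- A pseudo-orbit segment is close to a true orbit segment. -/
lemma seg (g : X → X) (hg : Continuous g) (t : ℕ) : ∀ ε : ℝ, 0 < ε → ∃ C : ℝ, 0 ≤ C ∧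
    ∀ (y : ℕ → X) (s : ℕ), dist (y (s + t)) (g^[t] (y s)) ≤
      ε + C * ∑ j ∈ range t, dist (g (y (s + j))) (y (s + j + 1)) := by
  induction t with
  | zero =>
    intro ε hε
    exact ⟨0, le_rfl, fun y s => by simp [hε.le]⟩
  | succ t ih =>
    intro ε hε
    obtain ⟨C', hC'0, hC'⟩ := exists_lin g hg (half_pos hε)
    obtain ⟨C, hC0, hC⟩ := ih (ε / (2 * (C' + 1))) (by positivity)
    refine ⟨1 + C' * C, by positivity, fun y s => ?_⟩
    have h1 := hC y s
    have h2 := hC' (y (s + t)) (g^[t] (y s))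
    have h3 : dist (y (s + (t + 1))) (g^[t + 1] (y s)) ≤
        dist (g (y (s + t))) (y (s + t + 1)) + dist (g (y (s + t))) (g (g^[t] (y s))) := by
      rw [Function.iterate_succ_apply', ← add_assoc]
      rw [dist_comm (g (y (s + t))) (y (s + t + 1))]
      exact dist_triangle _ _ _
    rw [sum_range_succ]
    set S := ∑ j ∈ range t, dist (g (y (s + j))) (y (s + j + 1)) with hS
    have hS0 : 0 ≤ S := sum_nonneg fun _ _ => dist_nonneg
    set e := dist (g (y (s + t))) (y (s + t + 1)) with he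
    have he0 : 0 ≤ e := dist_nonneg
    have h4 : C' * dist (y (s + t)) (g^[t] (y s)) ≤ C' * (ε / (2 * (C' + 1)) + C * S) :=
      mul_le_mul_of_nonneg_left h1 hC'0
    have h5 : C' * (ε / (2 * (C' + 1))) ≤ ε / 2 := by
      rw [mul_div_assoc', div_le_div_iff₀ (by positivity) (by positivity)]
      nlinarith
    have h6 : 0 ≤ C' * C * e := by positivity
    nlinarith

/-- uniform version of `seg` for `t < L` -/
lemma seg_lt (g : X → X) (hg : Continuous g) (L : ℕ) (ε : ℝ) (hε : 0 < ε) : ∃ C : ℝ, 0 ≤ C ∧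
    ∀ t < L, ∀ (y : ℕ → X) (s : ℕ), dist (y (s + t)) (g^[t] (y s)) ≤
      ε + C * ∑ j ∈ range t, dist (g (y (s + j))) (y (s + j + 1)) := by
  choose C hC0 hC using fun t => seg g hg t ε hε
  refine ⟨∑ t ∈ range L, C t, sum_nonneg fun t _ => hC0 t, fun t ht y s => ?_⟩
  refine (hC t y s).trans ?_
  have h1 : C t ≤ ∑ t ∈ range L, C t :=
    single_le_sum (fun t _ => hC0 t) (mem_range.2 ht)
  have h2 : 0 ≤ ∑ j ∈ range t, dist (g (y (s + j))) (y (s + j + 1)) :=
    sum_nonneg fun _ _ => dist_nonneg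
  nlinarith [mul_le_mul_of_nonneg_right h1 h2]

/-- The block approximation: `g^{i mod L} (y_{i - i mod L})`. -/
def blk (g : X → X) (L : ℕ) (y : ℕ → X) (i : ℕ) : X := g^[i % L] (y (i - i % L))

lemma sum_shift (e : ℕ → ℝ) (he : ∀ i, 0 ≤ e i) (n r : ℕ) :
    ∑ i ∈ range n, (if r < i then e (i - 1 - r) else 0) ≤ ∑ l ∈ range n, e l := by
  induction n with
  | zero => simp
  | succ n ih =>
    have key : ∀ m, ∑ i ∈ range (m + 1), (if r < i then e (i - 1 - r) else 0) =
        ∑ l ∈ range (m - r), e l := by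
      intro m
      induction m with
      | zero => simp
      | succ m ihm =>
        rw [sum_range_succ, ihm]
        by_cases h : r < m + 1
        · rw [if_pos h]
          have h1 : m + 1 - r = (m - r) + 1 := by omega
          have h2 : m + 1 - 1 - r = m - r := by omega
          rw [h1, sum_range_succ, h2]
        · rw [if_neg h]
          have h1 : m + 1 - r = m - r := by omega
          rw [h1, add_zero]
    rw [key n]
    exact sum_le_sum_of_subset_of_nonneg (range_subset_range.2 (by omega)) fun i _ _ => he i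

/-- Average distance between a sequence and its block approximation. -/
lemma block_close (g : X → X) (hg : Continuous g) (L : ℕ) (hL : 0 < L) (ε : ℝ) (hε : 0 < ε) :
    ∃ C : ℝ, 0 ≤ C ∧ ∀ (y : ℕ → X) (n : ℕ),
      ∑ i ∈ range n, dist (y i) (blk g L y i) ≤
        n * ε + C * ∑ j ∈ range n, dist (g (y j)) (y (j + 1)) := by
  obtain ⟨C, hC0, hC⟩ := seg_lt g hg L ε hε
  refine ⟨C * L, by positivity, fun y n => ?_⟩
  set e : ℕ → ℝ := fun j => dist (g (y j)) (y (j + 1)) with he
  have he0 : ∀ i, 0 ≤ e i := fun i => dist_nonneg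
  have h1 : ∀ i, dist (y i) (blk g L y i) ≤
      ε + C * ∑ r ∈ range L, (if r < i then e (i - 1 - r) else 0) := by
    intro i
    have ht : i % L < L := Nat.mod_lt _ hL
    have hle : i % L ≤ i := Nat.mod_le _ _
    have h2 := hC (i % L) ht y (i - i % L)
    rw [Nat.sub_add_cancel hle] at h2
    refine h2.trans ?_
    have h3 : ∑ j ∈ range (i % L), dist (g (y (i - i % L + j))) (y (i - i % L + j + 1)) ≤
        ∑ r ∈ range L, (if r < i then e (i - 1 - r) else 0) := by
      rw [← sum_range_reflect]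
      refine le_trans (le_of_eq ?_) (sum_le_sum_of_subset_of_nonneg
        (range_subset_range.2 ht.le) fun r _ _ => ?_)
      · refine sum_congr rfl fun r hr => ?_
        have hr' := mem_range.1 hr
        rw [if_pos (by omega)]
        have h4 : i - i % L + (i % L - 1 - r) = i - 1 - r := by omega
        simp only [he, h4]
      · split_ifs
        · exact he0 _
        · exact le_rfl
    have := mul_le_mul_of_nonneg_left h3 hC0
    linarith
  calc ∑ i ∈ range n, dist (y i) (blk g L y i)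
      ≤ ∑ i ∈ range n, (ε + C * ∑ r ∈ range L, (if r < i then e (i - 1 - r) else 0)) :=
        sum_le_sum fun i _ => h1 i
    _ = n * ε + C * ∑ r ∈ range L, ∑ i ∈ range n, (if r < i then e (i - 1 - r) else 0) := by
        rw [sum_add_distrib, ← mul_sum, sum_comm]
        simp
    _ ≤ n * ε + C * ∑ r ∈ range L, ∑ l ∈ range n, e l := by
        have h5 : ∑ r ∈ range L, ∑ i ∈ range n, (if r < i then e (i - 1 - r) else 0) ≤
            ∑ _r ∈ range L, ∑ l ∈ range n, e l :=
          sum_le_sum fun r _ => sum_shift e he0 n r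
        linarith [mul_le_mul_of_nonneg_left h5 hC0]
    _ = n * ε + C * L * ∑ j ∈ range n, dist (g (y j)) (y (j + 1)) := by
        rw [sum_const, card_range, nsmul_eq_mul]
        ring

lemma blk_lift (f : X → X) (g : Y → Y) (π : X → Y) (hπ : ∀ x, π (f x) = g (π x))
    (ℓ : Y → X) (hℓ : ∀ y, π (ℓ y) = y) (L : ℕ) (y : ℕ → Y) (i : ℕ) :
    π (blk f L (fun j => ℓ (y j)) i) = blk g L y i := by
  have h : Function.Semiconj π f g := hπ
  unfold blk
  rw [(h.iterate_right (i % L)).eq, hℓ]

lemma blk_succ (f : X → X) (L : ℕ) (hL : 0 < L) (x : ℕ → X) (i : ℕ) (h : (i + 1) % L ≠ 0) :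
    blk f L x (i + 1) = f (blk f L x i) := by
  unfold blk
  have h1 : (i + 1) % L = i % L + 1 := by
    have h2 : i % L < L := Nat.mod_lt _ hL
    rcases Nat.lt_or_ge (i % L + 1) L with h3 | h3
    · rw [Nat.add_mod, Nat.mod_eq_of_lt (show 1 < L by omega), Nat.mod_eq_of_lt h3]
    · exfalso
      have h4 : i % L + 1 = L := by omega
      apply h
      rcases Nat.lt_or_ge 1 L with h5 | h5
      · rw [Nat.add_mod, Nat.mod_eq_of_lt h5, h4, Nat.mod_self]
      · have : L = 1 := by omega
        subst this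
        exact Nat.mod_one _
  have h5 : i % L ≤ i := Nat.mod_le _ _
  have h6 : i + 1 - (i % L + 1) = i - i % L := by omega
  rw [h1, h6, Function.iterate_succ_apply']

/-- number of multiples of `L` in a window -/
lemma count_le (L : ℕ) (hL : 0 < L) (k n : ℕ) :
    ∑ i ∈ range n, (if (i + k + 1) % L = 0 then (1 : ℝ) else 0) ≤ n / L + 1 := by
  have h1 : ∀ m : ℕ, (if (m + 1) % L = 0 then (1 : ℝ) else 0) =
      (((m + 1) / L : ℕ) : ℝ) - ((m / L : ℕ) : ℝ) := by
    intro m
    rw [Nat.succ_div]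
    by_cases h : L ∣ m + 1
    · rw [if_pos (Nat.mod_eq_zero_of_dvd h), if_pos h]
      push_cast
      ring
    · rw [if_neg (fun h' => h (Nat.dvd_of_mod_eq_zero h')), if_neg h]
      simp
  have h2 : ∀ n : ℕ, ∑ i ∈ range n, (if (i + k + 1) % L = 0 then (1 : ℝ) else 0) =
      (((n + k) / L : ℕ) : ℝ) - ((k / L : ℕ) : ℝ) := by
    intro n
    induction n with
    | zero => simp
    | succ n ih =>
      rw [sum_range_succ, ih, h1 (n + k)]
      have : n + 1 + k = n + k + 1 := by ring
      rw [this]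
      ring
  rw [h2 n]
  have hL' : (0 : ℝ) < L := by exact_mod_cast hL
  have h3 : (((n + k) / L : ℕ) : ℝ) ≤ ((n + k : ℕ) : ℝ) / L := Nat.cast_div_le
  have h4 : ((k : ℕ) : ℝ) / L ≤ ((k / L : ℕ) : ℝ) + 1 := by
    rw [div_le_iff₀ hL']
    have : k < L * (k / L + 1) := by
      have := Nat.lt_mul_div_succ k hL
      simpa [Nat.succ_eq_add_one] using this
    have h5 : (k : ℝ) < L * ((k / L : ℕ) + 1) := by exact_mod_cast this
    linarith
  push_cast at h3
  rw [add_div] at h3
  linarith

end basics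

/-- **Q1.** The average shadowing property passes to factors. -/
theorem factor_asp {X Y : Type*} [MetricSpace X] [CompactSpace X] [MetricSpace Y] [CompactSpace Y]
    (f : X → X) (g : Y → Y) (hg : Continuous g) (π : X → Y)
    (hπc : Continuous π) (hπs : Function.Surjective π) (hπ : ∀ x, π (f x) = g (π x))
    (h : AverageShadowing f) : AverageShadowing g := by
  intro ε hε
  obtain ⟨C1, hC10, hC1⟩ := exists_lin π hπc (ε := ε / 8) (by positivity)
  obtain ⟨δX, hδX, hshad⟩ := h (ε / (8 * (C1 + 1))) (by positivity)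
  obtain ⟨D, hD0, hD⟩ := exists_diam X
  obtain ⟨L, hL⟩ := exists_nat_gt (2 * D / δX)
  have hLpos : (0 : ℝ) < L := lt_trans (by positivity) hL
  have hL0 : 0 < L := by exact_mod_cast hLpos
  obtain ⟨C2, hC20, hC2⟩ := block_close g hg L hL0 (ε / 8) (by positivity)
  refine ⟨ε / (8 * (C2 + 1)), by positivity, fun y hy => ?_⟩
  obtain ⟨N, hN⟩ := hy
  choose ℓ hℓ using hπs
  set x : ℕ → X := blk f L (fun j => ℓ (y j)) with hx
  have hxpo : IsAveragePseudoOrbit f δX x := by
    obtain ⟨N1, hN1⟩ := exists_nat_gt (2 * D / δX)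
    refine ⟨N1, fun n hn k => ?_⟩
    rcases Nat.eq_zero_or_pos n with h0 | h0
    · subst h0; simpa using hδX
    have hn' : (0 : ℝ) < n := by exact_mod_cast h0
    have h1 : ∑ i ∈ range n, dist (f (x (i + k))) (x (i + k + 1)) ≤ D * (n / L + 1) := by
      refine le_trans (sum_le_sum fun i _ => ?_) ((mul_sum _ _ _).symm.le.trans
        (mul_le_mul_of_nonneg_left (count_le L hL0 k n) hD0.le))
      by_cases hi : (i + k + 1) % L = 0
      · rw [if_pos hi, mul_one]; exact hD _ _
      · rw [if_neg hi, mul_zero, hx, blk_succ f L hL0 _ (i + k) hi, dist_self]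
    have h2 : (N1 : ℝ) ≤ n := by exact_mod_cast hn
    rw [div_lt_iff₀ hn']
    refine lt_of_le_of_lt h1 ?_
    have h3 : 2 * D < δX * L := by rwa [div_lt_iff₀' hδX] at hL
    have h4 : 2 * D < δX * n := by
      rw [div_lt_iff₀' hδX] at hN1
      exact lt_of_lt_of_le hN1 (by gcongr)
    have h5 : D * (n / L) < δX * n / 2 := by
      rw [mul_div_assoc', div_lt_div_iff₀ hLpos two_pos]
      nlinarith
    linarith
  obtain ⟨z, hz⟩ := hshad x hxpo
  refine ⟨π z, ?_⟩
  unfold ShadowedInAverage at hz ⊢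
  have hbdd : ∀ (W : Type _) [MetricSpace W] [CompactSpace W] (a b : ℕ → W),
      IsBoundedUnder (· ≤ ·) atTop
        (fun n : ℕ => (∑ i ∈ range n, dist (a i) (b i)) / (n : ℝ)) := by
    intro W _ _ a b
    obtain ⟨D', hD'0, hD'⟩ := exists_diam W
    refine isBoundedUnder_of ⟨D', fun n => ?_⟩
    rcases Nat.eq_zero_or_pos n with h0 | h0
    · subst h0; simpa using hD'0.le
    rw [div_le_iff₀ (by exact_mod_cast h0)]
    calc ∑ i ∈ range n, dist (a i) (b i) ≤ ∑ _i ∈ range n, D' := sum_le_sum fun i _ => hD' _ _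
      _ = D' * n := by simp [mul_comm]
  have hz' := eventually_lt_of_limsup_lt hz (hbdd X _ _)
  have hfin : ∀ᶠ n : ℕ in atTop,
      (∑ i ∈ range n, dist (g^[i] (π z)) (y i)) / (n : ℝ) ≤ ε / 2 := by
    filter_upwards [hz', eventually_ge_atTop N, eventually_gt_atTop 0] with n h1 h2 h3
    have hn' : (0 : ℝ) < n := by exact_mod_cast h3
    have h4 := hN n h2 0
    simp only [add_zero] at h4
    rw [div_lt_iff₀ hn'] at h1 h4
    rw [div_le_iff₀ hn']
    have h5 := hC2 y n
    have h6 : ∑ i ∈ range n, dist (g^[i] (π z)) (y i) ≤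
        ∑ i ∈ range n, ((ε / 8 + C1 * dist (f^[i] z) (x i)) + dist (y i) (blk g L y i)) := by
      refine sum_le_sum fun i _ => ?_
      have hsc : Function.Semiconj π f g := hπ
      have h7 : g^[i] (π z) = π (f^[i] z) := ((hsc.iterate_right i).eq z).symm
      have h8 : π (x i) = blk g L y i := blk_lift f g π hπ ℓ hℓ L y i
      rw [h7]
      calc dist (π (f^[i] z)) (y i) ≤ dist (π (f^[i] z)) (π (x i)) + dist (π (x i)) (y i) :=
            dist_triangle _ _ _
        _ ≤ _ := by
            rw [h8, dist_comm (blk g L y i)]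
            have := hC1 (f^[i] z) (x i)
            rw [h8] at this
            linarith
    rw [sum_add_distrib, sum_add_distrib, ← mul_sum] at h6
    simp only [sum_const, card_range, nsmul_eq_mul] at h6
    have h9 : C1 * ∑ i ∈ range n, dist (f^[i] z) (x i) ≤ C1 * (ε / (8 * (C1 + 1)) * n) :=
      mul_le_mul_of_nonneg_left h1.le hC10
    have h10 : C2 * ∑ j ∈ range n, dist (g (y j)) (y (j + 1)) ≤ C2 * (ε / (8 * (C2 + 1)) * n) :=
      mul_le_mul_of_nonneg_left h4.le hC20
    have h11 : ∀ C : ℝ, 0 ≤ C → C * (ε / (8 * (C + 1)) * n) ≤ ε / 8 * n := by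
      intro C hC
      have : C * (ε / (8 * (C + 1))) ≤ ε / 8 := by
        rw [mul_div_assoc', div_le_div_iff₀ (by positivity) (by positivity)]
        nlinarith
      nlinarith
    have h12 := h11 C1 hC10
    have h13 := h11 C2 hC20
    linarith
  refine lt_of_le_of_lt (limsup_le_of_le ?_ hfin) (half_lt_self hε)
  have hb : IsBoundedUnder (· ≥ ·) atTop
      (fun n : ℕ => (∑ i ∈ range n, dist (g^[i] (π z)) (y i)) / (n : ℝ)) :=
    isBoundedUnder_of ⟨0, fun n => div_nonneg (sum_nonneg fun _ _ => dist_nonneg)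
      (Nat.cast_nonneg n)⟩
  exact hb.isCoboundedUnder_le

/-- Diagonal choice of slowly growing block lengths. -/
theorem diag (u : ℕ → ℕ → ℝ) (D' : ℝ) (hD' : 0 ≤ D') (hu0 : ∀ m i, 0 ≤ u m i)
    (huD : ∀ m i, u m i ≤ D') (c : ℕ → ℝ) (hc : Tendsto c atTop (𝓝 0))
    (h : ∀ m, ∀ᶠ n : ℕ in atTop, ∑ i ∈ range n, u m i ≤ c m * n) :
    ∃ μ : ℕ → ℕ, (∀ i, μ (i + 1) = μ i ∨ (i + 1) % 2 ^ (μ i) = 0) ∧
      Tendsto (fun n : ℕ => (∑ i ∈ range n, u (μ i) i) / (n : ℝ)) atTop (𝓝 0) := by
  choose N hN using fun m => eventually_atTop.1 (h m)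
  let T : ℕ → ℕ := fun m => Nat.rec 0
    (fun m t => 2 ^ (m + 1) * ((m + 1) * t + N (m + 1) + t + 1)) m
  have hT0 : T 0 = 0 := rfl
  have hTs : ∀ m, T (m + 1) = 2 ^ (m + 1) * ((m + 1) * T m + N (m + 1) + T m + 1) := fun m => rfl
  have hTge : ∀ m, (m + 1) * T m + N (m + 1) + T m + 1 ≤ T (m + 1) := by
    intro m
    rw [hTs]
    exact Nat.le_mul_of_pos_left _ (by positivity)
  have hTmono : StrictMono T := strictMono_nat_of_lt_succ fun m => by
    have := hTge m
    have h2 : 0 ≤ (m + 1) * T m := Nat.zero_le _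
    omega
  have hTid : ∀ m, m ≤ T m := fun m => hTmono.le_apply
  have hTdvd : ∀ m, 2 ^ m ∣ T m := by
    intro m
    cases m with
    | zero => simp
    | succ m => exact ⟨_, hTs m⟩
  have hTN : ∀ m, N (m + 1) ≤ T (m + 1) := by
    intro m
    have := hTge m
    have h2 : 0 ≤ (m + 1) * T m := Nat.zero_le _
    omega
  have hTm : ∀ m, (m + 1) * T m ≤ T (m + 1) := by
    intro m
    have := hTge m
    omega
  clear_value T
  let μ : ℕ → ℕ := fun i => Nat.findGreatest (fun m => T m ≤ i) i
  have hμ1 : ∀ i, T (μ i) ≤ i := fun i =>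
    Nat.findGreatest_spec (P := fun m => T m ≤ i) (m := 0) (Nat.zero_le i)
      (hT0.le.trans (Nat.zero_le i))
  have hμ3 : ∀ i m, T m ≤ i → m ≤ μ i := fun i m hm =>
    Nat.le_findGreatest ((hTid m).trans hm) hm
  have hμ2 : ∀ i, i < T (μ i + 1) := by
    intro i
    by_contra hcon
    push Not at hcon
    have := hμ3 i _ hcon
    omega
  have hμmono : Monotone μ := fun a b hab => hμ3 b _ ((hμ1 a).trans hab)
  have hμtop : Tendsto μ atTop atTop :=
    tendsto_atTop_atTop.2 fun b => ⟨T b, fun a ha => hμ3 a b ha⟩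
  refine ⟨μ, fun i => ?_, ?_⟩
  · rcases (hμmono (Nat.le_succ i)).eq_or_lt with h1 | h1
    · exact Or.inl h1.symm
    · right
      have h2 : T (μ (i + 1)) ≤ i + 1 := hμ1 (i + 1)
      have h3 : i < T (μ (i + 1)) := lt_of_lt_of_le (hμ2 i) (hTmono.monotone h1)
      have h4 : T (μ (i + 1)) = i + 1 := by omega
      have h5 : 2 ^ (μ i) ∣ i + 1 := by
        rw [← h4]
        exact (pow_dvd_pow 2 h1.le).trans (hTdvd _)
      exact Nat.mod_eq_zero_of_dvd h5
  · have hbound : ∀ᶠ n : ℕ in atTop, (∑ i ∈ range n, u (μ i) i) / (n : ℝ) ≤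
        D' / (μ n : ℝ) + c (μ n - 1) + c (μ n) := by
      filter_upwards [hμtop.eventually_ge_atTop 2, eventually_gt_atTop 0] with n h1 h2
      have hn' : (0 : ℝ) < n := by exact_mod_cast h2
      obtain ⟨m, hm⟩ : ∃ m, μ n = m + 2 := ⟨μ n - 2, by omega⟩
      have hTn : T (m + 2) ≤ n := hm ▸ hμ1 n
      have h3 : ∀ i ∈ range n, u (μ i) i ≤
          (if i < T (m + 1) then D' else 0) + u (m + 1) i + u (m + 2) i := by
        intro i hi
        have hi' : i ≤ n := (mem_range.1 hi).le
        by_cases h4 : i < T (m + 1)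
        · rw [if_pos h4]
          linarith [huD (μ i) i, hu0 (m + 1) i, hu0 (m + 2) i]
        · rw [if_neg h4]
          push Not at h4
          have h5 : m + 1 ≤ μ i := hμ3 i _ h4
          have h6 : μ i ≤ m + 2 := hm ▸ hμmono hi'
          rcases (show μ i = m + 1 ∨ μ i = m + 2 by omega) with h7 | h7
          · rw [h7]; linarith [hu0 (m + 2) i]
          · rw [h7]; linarith [hu0 (m + 1) i]
      have h4 : ∑ i ∈ range n, (if i < T (m + 1) then D' else 0) ≤ D' * T (m + 1) := by
        rw [← sum_filter, sum_const, nsmul_eq_mul, mul_comm]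
        refine mul_le_mul_of_nonneg_left ?_ hD'
        have h5 : (range n).filter (fun i => i < T (m + 1)) ⊆ range (T (m + 1)) := by
          intro i hi
          exact mem_range.2 (mem_filter.1 hi).2
        have := card_le_card h5
        rw [card_range] at this
        exact_mod_cast this
      have h5 : ∑ i ∈ range n, u (m + 1) i ≤ c (m + 1) * n :=
        hN (m + 1) n ((hTN m).trans
          ((hTmono.monotone (show m + 1 ≤ m + 2 by omega)).trans hTn))
      have h6 : ∑ i ∈ range n, u (m + 2) i ≤ c (m + 2) * n :=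
        hN (m + 2) n ((hTN (m + 1)).trans hTn)
      have h7 : ((m + 2 : ℕ) : ℝ) * T (m + 1) ≤ n := by
        exact_mod_cast (hTm (m + 1)).trans hTn
      have h8 : D' * T (m + 1) ≤ D' / ((m + 2 : ℕ) : ℝ) * n := by
        rw [div_mul_eq_mul_div, le_div_iff₀ (by positivity)]
        nlinarith
      rw [div_le_iff₀ hn', hm]
      have h9 : m + 2 - 1 = m + 1 := rfl
      rw [h9]
      calc ∑ i ∈ range n, u (μ i) i ≤ ∑ i ∈ range n,
            ((if i < T (m + 1) then D' else 0) + u (m + 1) i + u (m + 2) i) := sum_le_sum h3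
        _ = ∑ i ∈ range n, (if i < T (m + 1) then D' else 0) + ∑ i ∈ range n, u (m + 1) i +
            ∑ i ∈ range n, u (m + 2) i := by rw [sum_add_distrib, sum_add_distrib]
        _ ≤ _ := by nlinarith
    have hlim : Tendsto (fun n : ℕ => D' / (μ n : ℝ) + c (μ n - 1) + c (μ n)) atTop (𝓝 0) := by
      have h1 : Tendsto (fun n : ℕ => D' / (μ n : ℝ)) atTop (𝓝 0) :=
        (tendsto_const_div_atTop_nhds_zero_nat D').comp hμtop
      have h2 : Tendsto (fun n : ℕ => c (μ n)) atTop (𝓝 0) := hc.comp hμtop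
      have h3 : Tendsto (fun n : ℕ => c (μ n - 1)) atTop (𝓝 0) :=
        hc.comp ((tendsto_sub_atTop_nat 1).comp hμtop)
      simpa using (h1.add h3).add h2
    refine squeeze_zero' ?_ hbound hlim
    exact Eventually.of_forall fun n => div_nonneg (sum_nonneg fun _ _ => hu0 _ _)
      (Nat.cast_nonneg n)

/-- **Q2.** The asymptotic average shadowing property passes to factors. -/
theorem factor_aasp {X Y : Type*} [MetricSpace X] [CompactSpace X] [MetricSpace Y]
    [CompactSpace Y] (f : X → X) (g : Y → Y) (hg : Continuous g) (π : X → Y)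
    (hπc : Continuous π) (hπs : Function.Surjective π) (hπ : ∀ x, π (f x) = g (π x))
    (h : AsymptoticAverageShadowing f) : AsymptoticAverageShadowing g := by
  intro y hy
  obtain ⟨D, hD0, hD⟩ := exists_diam X
  obtain ⟨D2, hD20, hD2⟩ := exists_diam Y
  choose ℓ hℓ using hπs
  let u : ℕ → ℕ → ℝ := fun m i =>
    dist (y i) (blk g (2 ^ m) y i) + (if (i + 1) % 2 ^ m = 0 then D else 0)
  have hite0 : ∀ m i : ℕ, (0 : ℝ) ≤ (if (i + 1) % 2 ^ m = 0 then D else 0) := by
    intro m i
    split_ifs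
    · exact hD0.le
    · exact le_rfl
  have hite1 : ∀ m i : ℕ, (if (i + 1) % 2 ^ m = 0 then D else 0) ≤ D := by
    intro m i
    split_ifs
    · exact le_rfl
    · exact hD0.le
  obtain ⟨μ, hμ, hlim⟩ := diag u (D2 + D) (by positivity)
    (fun m i => add_nonneg dist_nonneg (hite0 m i))
    (fun m i => add_le_add (hD2 _ _) (hite1 m i))
    (fun m => 2 / ((m : ℝ) + 1) + 2 * D * (1 / 2) ^ m)
    (by
      have h1 : Tendsto (fun m : ℕ => 2 / ((m : ℝ) + 1)) atTop (𝓝 0) := by
        have := (tendsto_const_div_atTop_nhds_zero_nat (2 : ℝ)).comp (tendsto_add_atTop_nat 1)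
        refine this.congr fun m => ?_
        simp
      have h2 : Tendsto (fun m : ℕ => 2 * D * (1 / 2 : ℝ) ^ m) atTop (𝓝 (2 * D * 0)) :=
        (tendsto_pow_atTop_nhds_zero_of_lt_one (by norm_num) (by norm_num)).const_mul _
      simpa using h1.add h2)
    (by
      intro m
      have hL : 0 < 2 ^ m := by positivity
      obtain ⟨C, hC0, hC⟩ := block_close g hg (2 ^ m) hL (1 / ((m : ℝ) + 1)) (by positivity)
      have hev : ∀ᶠ n : ℕ in atTop,
          (∑ i ∈ range n, dist (g (y i)) (y (i + 1))) / (n : ℝ) <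
            1 / ((C + 1) * ((m : ℝ) + 1)) :=
        hy.eventually_lt_const (by positivity)
      filter_upwards [hev, eventually_ge_atTop (2 ^ m), eventually_gt_atTop 0] with n h1 h2 h3
      have hn' : (0 : ℝ) < n := by exact_mod_cast h3
      rw [div_lt_iff₀ hn'] at h1
      have h4 := hC y n
      have h5 : ∑ i ∈ range n, (if (i + 1) % 2 ^ m = 0 then D else 0) ≤
          2 * D * (1 / 2) ^ m * n := by
        have h6 := count_le (2 ^ m) hL 0 n
        simp only [add_zero] at h6
        have h7 : ∑ i ∈ range n, (if (i + 1) % 2 ^ m = 0 then D else 0) =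
            D * ∑ i ∈ range n, (if (i + 1) % 2 ^ m = 0 then (1 : ℝ) else 0) := by
          rw [mul_sum]
          refine sum_congr rfl fun i _ => ?_
          split_ifs <;> simp
        rw [h7]
        have h8 : (1 : ℝ) ≤ n / ((2 ^ m : ℕ) : ℝ) := by
          rw [one_le_div (by positivity)]
          exact_mod_cast h2
        have h9 : (n : ℝ) / ((2 ^ m : ℕ) : ℝ) = (1 / 2) ^ m * n := by
          push_cast
          rw [one_div, inv_pow]
          field_simp
        rw [h9] at h6 h8
        nlinarith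
      have h6 : C * ∑ j ∈ range n, dist (g (y j)) (y (j + 1)) ≤ 1 / ((m : ℝ) + 1) * n := by
        calc C * ∑ j ∈ range n, dist (g (y j)) (y (j + 1))
            ≤ C * (1 / ((C + 1) * ((m : ℝ) + 1)) * n) :=
              mul_le_mul_of_nonneg_left h1.le hC0
          _ = (C / (C + 1)) * (1 / ((m : ℝ) + 1) * n) := by
              field_simp
          _ ≤ 1 * (1 / ((m : ℝ) + 1) * n) := by
              refine mul_le_mul_of_nonneg_right ?_ (by positivity)
              rw [div_le_one (by positivity)]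
              linarith
          _ = _ := one_mul _
      have h7 : ∑ i ∈ range n, u m i = ∑ i ∈ range n, dist (y i) (blk g (2 ^ m) y i) +
          ∑ i ∈ range n, (if (i + 1) % 2 ^ m = 0 then D else 0) := sum_add_distrib
      rw [h7]
      have h8 : (2 / ((m : ℝ) + 1) + 2 * D * (1 / 2) ^ m) * n =
          n * (1 / ((m : ℝ) + 1)) + 1 / ((m : ℝ) + 1) * n + 2 * D * (1 / 2) ^ m * n := by
        ring
      rw [h8]
      linarith)
  set x : ℕ → X := fun i => blk f (2 ^ (μ i)) (fun j => ℓ (y j)) i with hx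
  have hstep : ∀ i, dist (f (x i)) (x (i + 1)) ≤ u (μ i) i := by
    intro i
    by_cases h1 : (i + 1) % 2 ^ (μ i) = 0
    · have h2 : u (μ i) i = dist (y i) (blk g (2 ^ (μ i)) y i) + D := by
        simp only [u, if_pos h1]
      rw [h2]
      have := hD (f (x i)) (x (i + 1))
      have h3 : 0 ≤ dist (y i) (blk g (2 ^ (μ i)) y i) := dist_nonneg
      linarith
    · have h2 : μ (i + 1) = μ i := (hμ i).resolve_right h1
      have h3 : x (i + 1) = f (x i) := by
        simp only [hx, h2]
        exact blk_succ f _ (by positivity) _ i h1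
      rw [h3, dist_self]
      exact add_nonneg dist_nonneg (hite0 _ _)
  have hxpo : Tendsto (fun n : ℕ => (∑ i ∈ range n, dist (f (x i)) (x (i + 1))) / (n : ℝ))
      atTop (𝓝 0) := by
    refine squeeze_zero (fun n => div_nonneg (sum_nonneg fun _ _ => dist_nonneg)
      (Nat.cast_nonneg n)) (fun n => ?_) hlim
    exact div_le_div_of_nonneg_right (sum_le_sum fun i _ => hstep i) (Nat.cast_nonneg n)
  obtain ⟨z, hz⟩ := h x hxpo
  refine ⟨π z, ?_⟩
  refine tendsto_order.2 ⟨fun a ha => Eventually.of_forall fun n => lt_of_lt_of_le ha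
    (div_nonneg (sum_nonneg fun _ _ => dist_nonneg) (Nat.cast_nonneg n)), fun ε hε => ?_⟩
  obtain ⟨C, hC0, hC⟩ := exists_lin π hπc (ε := ε / 2) (by positivity)
  have hlim2 : Tendsto (fun n : ℕ => ε / 2 +
      C * ((∑ i ∈ range n, dist (f^[i] z) (x i)) / (n : ℝ)) +
      (∑ i ∈ range n, u (μ i) i) / (n : ℝ)) atTop (𝓝 (ε / 2 + C * 0 + 0)) :=
    (tendsto_const_nhds.add (hz.const_mul C)).add hlim
  have hlim3 := hlim2.eventually_lt_const (show ε / 2 + C * 0 + 0 < ε by
    rw [mul_zero, add_zero, add_zero]; exact half_lt_self hε)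
  filter_upwards [hlim3, eventually_gt_atTop 0] with n h1 h2
  have hn' : (0 : ℝ) < n := by exact_mod_cast h2
  refine lt_of_le_of_lt ?_ h1
  have h3 : ∀ i ∈ range n, dist (g^[i] (π z)) (y i) ≤
      (ε / 2 + C * dist (f^[i] z) (x i)) + u (μ i) i := by
    intro i _
    have hsc : Function.Semiconj π f g := hπ
    have h7 : g^[i] (π z) = π (f^[i] z) := ((hsc.iterate_right i).eq z).symm
    have h8 : π (x i) = blk g (2 ^ (μ i)) y i := blk_lift f g π hπ ℓ hℓ _ y i
    rw [h7]
    have h9 := hC (f^[i] z) (x i)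
    have h10 := dist_triangle (π (f^[i] z)) (π (x i)) (y i)
    have h11 : dist (π (x i)) (y i) ≤ u (μ i) i := by
      rw [h8, dist_comm]
      exact le_add_of_nonneg_right (hite0 _ _)
    linarith
  rw [div_le_iff₀ hn']
  refine (sum_le_sum h3).trans (le_of_eq ?_)
  rw [sum_add_distrib, sum_add_distrib, ← mul_sum, sum_const, card_range, nsmul_eq_mul]
  field_simp

end Pool.Agent.R292.AvgShadow
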