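import Mathlib

/-!
# Coloured coverings and covering dimension

`Col A m`: for every `k` and `ε` there are `k` finite families of pairwise disjoint compact sets of
diameter `≤ ε` such that every point of `A` is missed by at most `m` of the families.
-/

set_option autoImplicit false

namespace Pool.Agent.R292.CovDim

open Set Filter Topology

universe u v

/-- Lebesgue covering dimension at most `n`: every finite open cover has a finite open refinement
such that each point lies in at most `n + 1` members. -/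
def DimLE (X : Type u) [TopologicalSpace X] (n : ℕ) : Prop :=
  ∀ (ι : Type) [Finite ι] (U : ι → Set X), (∀ i, IsOpen (U i)) → (⋃ i, U i) = univ →
    ∃ (κ : Type) (_ : Finite κ) (V : κ → Set X), (∀ k, IsOpen (V k)) ∧ (⋃ k, V k) = univ ∧
      (∀ k, ∃ i, V k ⊆ U i) ∧ ∀ x, Nat.card {k // x ∈ V k} ≤ n + 1

/-- Coloured coverings. -/
def Col {Z : Type u} [MetricSpace Z] (A : Set Z) (m : ℕ) : Prop :=
  ∀ ε : ℝ, 0 < ε → ∀ k : ℕ, ∃ (κ : Type) (_ : Finite κ) (F : Fin k → κ → Set Z),
    (∀ j a, IsCompact (F j a)) ∧ (∀ j a b, a ≠ b → Disjoint (F j a) (F j b)) ∧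
    (∀ j a, ∀ x ∈ F j a, ∀ y ∈ F j a, dist x y ≤ ε) ∧
    ∀ x ∈ A, {j | x ∉ ⋃ a, F j a}.ncard ≤ m

lemma Col.mono {Z : Type u} [MetricSpace Z] {A B : Set Z} {m n : ℕ} (h : Col A m) (hBA : B ⊆ A)
    (hmn : m ≤ n) : Col B n := by
  intro ε hε k
  obtain ⟨κ, hκ, F, h1, h2, h3, h4⟩ := h ε hε k
  exact ⟨κ, hκ, F, h1, h2, h3, fun x hx => (h4 x (hBA hx)).trans hmn⟩

lemma exists_gap {Z : Type u} [MetricSpace Z] {k : ℕ} {κ : Type} [Finite κ]
    (F : Fin k → κ → Set Z) (h1 : ∀ j a, IsCompact (F j a))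
    (h2 : ∀ j a b, a ≠ b → Disjoint (F j a) (F j b)) :
    ∃ δ : ℝ, 0 < δ ∧ ∀ j a b, a ≠ b → ∀ x ∈ F j a, ∀ y ∈ F j b, δ ≤ dist x y := by
  have key : ∀ j a b, ∀ᶠ δ : ℝ in 𝓝[>] 0, a ≠ b → ∀ x ∈ F j a, ∀ y ∈ F j b, δ ≤ dist x y := by
    intro j a b
    by_cases hab : a = b
    · exact Eventually.of_forall fun δ h => absurd hab h
    · obtain ⟨δ, hδ, hd⟩ := (h2 j a b hab).exists_thickenings (h1 j a) (h1 j b).isClosed
      filter_upwards [Ioo_mem_nhdsGT hδ] with δ' hδ' _ x hx y hy
      by_contra hcon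
      push Not at hcon
      have h3 : y ∈ Metric.thickening δ (F j a) :=
        Metric.mem_thickening_iff.2 ⟨x, hx, by rw [dist_comm]; exact hcon.trans hδ'.2⟩
      exact Set.disjoint_left.1 hd h3 (Metric.self_subset_thickening hδ _ hy)
  have h3 : ∀ᶠ δ : ℝ in 𝓝[>] 0, ∀ j a b, a ≠ b → ∀ x ∈ F j a, ∀ y ∈ F j b, δ ≤ dist x y := by
    rw [eventually_all]; intro j
    rw [eventually_all]; intro a
    rw [eventually_all]; intro b
    exact key j a b
  obtain ⟨δ, h4, h5⟩ := (h3.and self_mem_nhdsWithin).exists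
  exact ⟨δ, h5, h4⟩

/-- Finite union of two sets. -/
lemma Col.union {Z : Type u} [MetricSpace Z] {A B : Set Z} {m : ℕ} (hA : Col A m)
    (hB : Col B m) : Col (A ∪ B) m := by
  classical
  intro ε hε k
  obtain ⟨κ, hκ, F, h1, h2, h3, h4⟩ := hA (ε / 3) (by positivity) k
  obtain ⟨δ, hδ, hgap⟩ := exists_gap F h1 h2
  obtain ⟨κ', hκ', H, g1, g2, g3, g4⟩ := hB (min (ε / 3) (δ / 2)) (by positivity) k
  refine ⟨κ ⊕ κ', inferInstance, fun j => Sum.elim
    (fun a => F j a ∪ ⋃ b, ⋃ (_ : (H j b ∩ F j a).Nonempty), H j b)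
    (fun b => if ∃ a, (H j b ∩ F j a).Nonempty then ∅ else H j b), ?_, ?_, ?_, ?_⟩
  · rintro j (a | b)
    · simp only [Sum.elim_inl]
      refine (h1 j a).union (isCompact_iUnion fun b => ?_)
      by_cases hb : (H j b ∩ F j a).Nonempty
      · simp only [hb, iUnion_true]
        exact g1 j b
      · simp only [hb, iUnion_of_empty]
        exact isCompact_empty
    · simp only [Sum.elim_inr]
      split_ifs
      · exact isCompact_empty
      · exact g1 j b
  · have key : ∀ j a a' b, a ≠ a' → (H j b ∩ F j a).Nonempty → ¬ (H j b ∩ F j a').Nonempty := by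
      rintro j a a' b haa ⟨x, hx1, hx2⟩ ⟨y, hy1, hy2⟩
      have e1 := hgap j a a' haa x hx2 y hy2
      have e2 := g3 j b x hx1 y hy1
      have e3 : min (ε / 3) (δ / 2) ≤ δ / 2 := min_le_right _ _
      linarith
    have keyab : ∀ j a b, Disjoint (F j a ∪ ⋃ b, ⋃ (_ : (H j b ∩ F j a).Nonempty), H j b)
        (if ∃ a, (H j b ∩ F j a).Nonempty then ∅ else H j b) := by
      intro j a b
      split_ifs with hb
      · exact disjoint_empty _
      · rw [Set.disjoint_left]
        rintro x (hx | hx) hxb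
        · exact hb ⟨a, x, hxb, hx⟩
        · simp only [mem_iUnion] at hx
          obtain ⟨b', hb', hxb'⟩ := hx
          by_cases hbb : b' = b
          · subst hbb
            exact hb ⟨a, hb'⟩
          · exact Set.disjoint_left.1 (g2 j b' b hbb) hxb' hxb
    rintro j (a | b) (a' | b') hab
    · have haa : a ≠ a' := fun h => hab (by rw [h])
      simp only [Sum.elim_inl]
      rw [Set.disjoint_left]
      rintro x (hx | hx) (hx' | hx')
      · exact Set.disjoint_left.1 (h2 j a a' haa) hx hx'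
      · simp only [mem_iUnion] at hx'
        obtain ⟨b, hb, hxb⟩ := hx'
        exact key j a a' b haa ⟨x, hxb, hx⟩ hb
      · simp only [mem_iUnion] at hx
        obtain ⟨b, hb, hxb⟩ := hx
        exact key j a' a b haa.symm ⟨x, hxb, hx'⟩ hb
      · simp only [mem_iUnion] at hx hx'
        obtain ⟨b, hb, hxb⟩ := hx
        obtain ⟨b', hb', hxb'⟩ := hx'
        by_cases hbb : b = b'
        · subst hbb
          exact key j a a' b haa hb hb'
        · exact Set.disjoint_left.1 (g2 j b b' hbb) hxb hxb'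
    · simp only [Sum.elim_inl, Sum.elim_inr]
      exact keyab j a b'
    · simp only [Sum.elim_inl, Sum.elim_inr]
      exact (keyab j a' b).symm
    · have hbb : b ≠ b' := fun h => hab (by rw [h])
      simp only [Sum.elim_inr]
      split_ifs
      · exact disjoint_empty _
      · exact empty_disjoint _
      · exact disjoint_empty _
      · exact g2 j b b' hbb
  · have key : ∀ j a, ∀ x ∈ (F j a ∪ ⋃ b, ⋃ (_ : (H j b ∩ F j a).Nonempty), H j b),
        ∃ x' ∈ F j a, dist x x' ≤ ε / 3 := by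
      rintro j a x (hx | hx)
      · exact ⟨x, hx, by rw [dist_self]; positivity⟩
      · simp only [mem_iUnion] at hx
        obtain ⟨b, ⟨y, hy1, hy2⟩, hxb⟩ := hx
        exact ⟨y, hy2, (g3 j b x hxb y hy1).trans (min_le_left _ _)⟩
    rintro j (a | b) x hx y hy
    · simp only [Sum.elim_inl] at hx hy
      obtain ⟨x', hx', e1⟩ := key j a x hx
      obtain ⟨y', hy', e2⟩ := key j a y hy
      have e3 := h3 j a x' hx' y' hy'
      have e4 := dist_triangle4 x x' y' y
      rw [dist_comm y' y] at e4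
      linarith
    · simp only [Sum.elim_inr] at hx hy
      split_ifs at hx hy
      · exact absurd hx (notMem_empty _)
      · have := (g3 j b x hx y hy).trans (min_le_left _ _)
        linarith
  · rintro x (hx | hx)
    · refine (ncard_le_ncard ?_ (Set.toFinite _)).trans (h4 x hx)
      intro j hj hcon
      apply hj
      obtain ⟨a, ha⟩ := mem_iUnion.1 hcon
      exact mem_iUnion.2 ⟨Sum.inl a, Or.inl ha⟩
    · refine (ncard_le_ncard ?_ (Set.toFinite _)).trans (g4 x hx)
      intro j hj hcon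
      apply hj
      obtain ⟨b, hb⟩ := mem_iUnion.1 hcon
      by_cases hbt : ∃ a, (H j b ∩ F j a).Nonempty
      · obtain ⟨a, ha⟩ := hbt
        exact mem_iUnion.2 ⟨Sum.inl a, Or.inr (mem_iUnion₂.2 ⟨b, ha, hb⟩)⟩
      · refine mem_iUnion.2 ⟨Sum.inr b, ?_⟩
        simp only [Sum.elim_inr, if_neg hbt]
        exact hb

lemma Col.empty {Z : Type u} [MetricSpace Z] (m : ℕ) : Col (∅ : Set Z) m := by
  intro ε hε k
  exact ⟨Empty, inferInstance, fun _ a => a.elim, fun _ a => a.elim, fun _ a => a.elim,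
    fun _ a => a.elim, fun x hx => absurd hx (notMem_empty _)⟩

lemma Col.biUnion {Z : Type u} [MetricSpace Z] {γ : Type v} (s : Finset γ) (A : γ → Set Z)
    {m : ℕ} (h : ∀ c ∈ s, Col (A c) m) : Col (⋃ c ∈ s, A c) m := by
  classical
  induction s using Finset.induction_on with
  | empty => simpa using Col.empty m
  | insert a s ha ih =>
    rw [Finset.set_biUnion_insert]
    exact (h a (Finset.mem_insert_self _ _)).union
      (ih fun c hc => h c (Finset.mem_insert_of_mem hc))

/-- A point. -/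
lemma Col.singleton {Z : Type u} [MetricSpace Z] (z : Z) : Col ({z} : Set Z) 0 := by
  intro ε hε k
  refine ⟨Unit, inferInstance, fun _ _ => {z}, fun _ _ => isCompact_singleton,
    fun j a b hab => absurd (Subsingleton.elim a b) hab, ?_, ?_⟩
  · rintro j a x rfl y rfl
    rw [dist_self]
    exact hε.le
  · rintro x rfl
    have : {j : Fin k | x ∉ ⋃ _ : Unit, ({x} : Set Z)} = ∅ := by
      ext j
      simp
    rw [this, ncard_empty]

/-- Finite powers. -/
lemma Col.pi {Z : Type u} [MetricSpace Z] {Q : Type} [Fintype Q] (A : Q → Set Z) (m : Q → ℕ)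
    (h : ∀ q, Col (A q) (m q)) : Col (Set.pi univ A) (∑ q, m q) := by
  classical
  intro ε hε k
  choose κ hκ F h1 h2 h3 h4 using fun q => h q ε hε k
  refine ⟨∀ q, κ q, inferInstance, fun j a => Set.pi univ fun q => F q j (a q), ?_, ?_, ?_, ?_⟩
  · intro j a
    exact isCompact_univ_pi fun q => h1 q j (a q)
  · intro j a b hab
    obtain ⟨q, hq⟩ := Function.ne_iff.1 hab
    rw [Set.disjoint_left]
    intro x hx hx'
    exact Set.disjoint_left.1 (h2 q j _ _ hq) (hx q trivial) (hx' q trivial)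
  · intro j a x hx y hy
    exact (dist_pi_le_iff hε.le).2 fun q => h3 q j (a q) _ (hx q trivial) _ (hy q trivial)
  · intro x hx
    have hsub : {j | x ∉ ⋃ a : ∀ q, κ q, Set.pi univ fun q => F q j (a q)} ⊆
        ⋃ q ∈ (Finset.univ : Finset Q), {j | x q ∉ ⋃ a, F q j a} := by
      intro j hj
      by_contra hcon
      have hex : ∀ q, ∃ a, x q ∈ F q j a := by
        intro q
        by_contra h
        exact hcon (mem_iUnion₂.2 ⟨q, Finset.mem_univ q, fun h' => h (mem_iUnion.1 h')⟩)
      choose a ha using hex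
      exact hj (mem_iUnion.2 ⟨a, fun q _ => ha q⟩)
    refine (ncard_le_ncard hsub (Set.toFinite _)).trans ?_
    refine (Finset.set_ncard_biUnion_le _ _).trans ?_
    exact Finset.sum_le_sum fun q _ => h4 q (x q) (hx q trivial)

/-- Products. -/
lemma Col.prod {Z : Type u} {Z' : Type v} [MetricSpace Z] [MetricSpace Z'] {A : Set Z}
    {B : Set Z'} {m n : ℕ} (hA : Col A m) (hB : Col B n) : Col (A ×ˢ B) (m + n) := by
  classical
  intro ε hε k
  obtain ⟨κ, hκ, F, h1, h2, h3, h4⟩ := hA ε hε k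
  obtain ⟨κ', hκ', H, g1, g2, g3, g4⟩ := hB ε hε k
  refine ⟨κ × κ', inferInstance, fun j a => F j a.1 ×ˢ H j a.2, ?_, ?_, ?_, ?_⟩
  · intro j a
    exact (h1 j a.1).prod (g1 j a.2)
  · rintro j ⟨a, b⟩ ⟨a', b'⟩ hab
    rw [Set.disjoint_left]
    rintro ⟨x, y⟩ ⟨hx, hy⟩ ⟨hx', hy'⟩
    by_cases haa : a = a'
    · have hbb : b ≠ b' := fun h => hab (by rw [haa, h])
      exact Set.disjoint_left.1 (g2 j b b' hbb) hy hy'
    · exact Set.disjoint_left.1 (h2 j a a' haa) hx hx'
  · rintro j ⟨a, b⟩ ⟨x, y⟩ ⟨hx, hy⟩ ⟨x', y'⟩ ⟨hx', hy'⟩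
    rw [Prod.dist_eq]
    exact max_le (h3 j a x hx x' hx') (g3 j b y hy y' hy')
  · rintro ⟨x, y⟩ ⟨hx, hy⟩
    have hsub : {j | (x, y) ∉ ⋃ a : κ × κ', F j a.1 ×ˢ H j a.2} ⊆
        {j | x ∉ ⋃ a, F j a} ∪ {j | y ∉ ⋃ b, H j b} := by
      intro j hj
      by_contra hcon
      simp only [mem_union, not_or, mem_ofPred_eq, not_not, mem_iUnion] at hcon
      obtain ⟨⟨a, ha⟩, ⟨b, hb⟩⟩ := hcon
      exact hj (mem_iUnion.2 ⟨(a, b), ha, hb⟩)
    refine (ncard_le_ncard hsub (Set.toFinite _)).trans ((ncard_union_le _ _).trans ?_)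
    exact add_le_add (h4 x hx) (g4 y hy)

/-- Intervals. -/
lemma Col.Icc (a b : ℝ) : Col (Set.Icc a b) 1 := by
  classical
  intro ε hε k
  let κ : Type := {i : ℤ // i ∈ Finset.Icc (⌊a / ε⌋ - 1) ⌊b / ε⌋}
  refine ⟨κ, inferInstance, fun j i => Set.Icc (ε * (i.1 + ((j : ℕ) + 1) / k))
    (ε * (i.1 + 1 + (j : ℕ) / k)), ?_, ?_, ?_, ?_⟩
  · intro j i
    exact isCompact_Icc
  · intro j i i' hii
    have hk : (0 : ℝ) < k := by
      have := j.2
      exact_mod_cast (show 0 < k by omega)
    have key : ∀ p q : κ, p.1 < q.1 → ∀ x : ℝ, x ∈ Set.Icc (ε * (p.1 + ((j : ℕ) + 1) / k))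
        (ε * (p.1 + 1 + (j : ℕ) / k)) → x ∉ Set.Icc (ε * (q.1 + ((j : ℕ) + 1) / k))
        (ε * (q.1 + 1 + (j : ℕ) / k)) := by
      intro p q hpq x hx hx'
      have h1 : (p.1 : ℝ) + 1 ≤ q.1 := by exact_mod_cast hpq
      have h2 : ε * (q.1 + ((j : ℕ) + 1) / k) ≤ ε * (p.1 + 1 + (j : ℕ) / k) :=
        hx'.1.trans hx.2
      have h3 := le_of_mul_le_mul_left h2 hε
      have h4 : ((j : ℕ) + 1 : ℝ) / k = (j : ℕ) / k + 1 / k := by ring
      have h5 : 0 < 1 / (k : ℝ) := by positivity
      rw [h4] at h3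
      linarith
    rw [Set.disjoint_left]
    intro x hx hx'
    rcases lt_trichotomy i.1 i'.1 with h | h | h
    · exact key i i' h x hx hx'
    · exact hii (Subtype.ext h)
    · exact key i' i h x hx' hx
  · intro j i x hx y hy
    have hk : (0 : ℝ) < k := by
      have := j.2
      exact_mod_cast (show 0 < k by omega)
    rw [Real.dist_eq, abs_le]
    have h4 : ((j : ℕ) + 1 : ℝ) / k = (j : ℕ) / k + 1 / k := by ring
    have h5 : 0 < ε * (1 / (k : ℝ)) := by positivity
    have h1 := hx.1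
    have h2 := hx.2
    have h3 := hy.1
    have h6 := hy.2
    rw [h4] at h1 h3
    constructor <;> nlinarith
  · intro x hx
    rw [ncard_le_one_iff]
    have key : ∀ j : Fin k, j ∈ {j : Fin k | x ∉ ⋃ i : κ,
        Set.Icc (ε * (i.1 + ((j : ℕ) + 1) / k)) (ε * (i.1 + 1 + (j : ℕ) / k))} →
        x / ε - (j : ℕ) / k < ⌊x / ε - (j : ℕ) / k⌋ + 1 / k := by
      intro j hj
      have hk : (0 : ℝ) < k := by
        have := j.2
        exact_mod_cast (show 0 < k by omega)
      by_contra hcon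
      push Not at hcon
      apply hj
      have hjk : (j : ℕ) / (k : ℝ) ≤ 1 := by
        rw [div_le_one hk]
        exact_mod_cast j.2.le
      have hjk0 : 0 ≤ (j : ℕ) / (k : ℝ) := by positivity
      have ha : a / ε ≤ x / ε := div_le_div_of_nonneg_right hx.1 hε.le
      have hb : x / ε ≤ b / ε := div_le_div_of_nonneg_right hx.2 hε.le
      refine mem_iUnion.2 ⟨⟨⌊x / ε - (j : ℕ) / k⌋, ?_⟩, ?_, ?_⟩
      · rw [Finset.mem_Icc]
        constructor
        · rw [← Int.floor_sub_one]
          exact Int.floor_le_floor (by linarith)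
        · exact Int.floor_le_floor (by linarith)
      · have h1 : ε * (x / ε) = x := by field_simp
        have h4 : ((j : ℕ) + 1 : ℝ) / k = (j : ℕ) / k + 1 / k := by ring
        calc _ ≤ ε * (x / ε) := mul_le_mul_of_nonneg_left (by rw [h4]; simp only; linarith) hε.le
          _ = x := h1
      · have h1 : x = ε * (x / ε) := by field_simp
        have h2 := Int.lt_floor_add_one (x / ε - (j : ℕ) / k)
        calc x = ε * (x / ε) := h1
          _ ≤ _ := mul_le_mul_of_nonneg_left (by simp only; linarith) hε.le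
    intro j j' hj hj'
    have h1 := key j hj
    have h2 := key j' hj'
    have hk : (0 : ℝ) < k := by
      have := j.2
      exact_mod_cast (show 0 < k by omega)
    have h3 := Int.floor_le (x / ε - (j : ℕ) / k)
    have h4 := Int.floor_le (x / ε - (j' : ℕ) / k)
    set n1 := ⌊x / ε - (j : ℕ) / k⌋ with hn1
    set n2 := ⌊x / ε - (j' : ℕ) / k⌋ with hn2
    have h5 : (k : ℝ) * (x / ε) - (j : ℕ) < k * n1 + 1 := by
      have := mul_lt_mul_of_pos_left h1 hk
      have e1 : (k : ℝ) * (x / ε - (j : ℕ) / k) = k * (x / ε) - (j : ℕ) := by field_simp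
      have e2 : (k : ℝ) * (n1 + 1 / k) = k * n1 + 1 := by field_simp
      rw [e1, e2] at this
      exact this
    have h6 : (k : ℝ) * (x / ε) - (j' : ℕ) < k * n2 + 1 := by
      have := mul_lt_mul_of_pos_left h2 hk
      have e1 : (k : ℝ) * (x / ε - (j' : ℕ) / k) = k * (x / ε) - (j' : ℕ) := by field_simp
      have e2 : (k : ℝ) * (n2 + 1 / k) = k * n2 + 1 := by field_simp
      rw [e1, e2] at this
      exact this
    have h7 : (k : ℝ) * n1 ≤ (k : ℝ) * (x / ε) - (j : ℕ) := by
      have := mul_le_mul_of_nonneg_left h3 hk.le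
      have e1 : (k : ℝ) * (x / ε - (j : ℕ) / k) = k * (x / ε) - (j : ℕ) := by field_simp
      rw [e1] at this
      exact this
    have h8 : (k : ℝ) * n2 ≤ (k : ℝ) * (x / ε) - (j' : ℕ) := by
      have := mul_le_mul_of_nonneg_left h4 hk.le
      have e1 : (k : ℝ) * (x / ε - (j' : ℕ) / k) = k * (x / ε) - (j' : ℕ) := by field_simp
      rw [e1] at this
      exact this
    have h9 : (k : ℤ) * n1 + (j : ℕ) < k * n2 + (j' : ℕ) + 1 := by
      have : (k : ℝ) * n1 + (j : ℕ) < k * n2 + (j' : ℕ) + 1 := by linarith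
      exact_mod_cast this
    have h10 : (k : ℤ) * n2 + (j' : ℕ) < k * n1 + (j : ℕ) + 1 := by
      have : (k : ℝ) * n2 + (j' : ℕ) < k * n1 + (j : ℕ) + 1 := by linarith
      exact_mod_cast this
    have h11 : (k : ℤ) * n1 + (j : ℕ) = k * n2 + (j' : ℕ) := by omega
    have h12 : ((k : ℤ) * n1 + (j : ℕ)) % k = ((k : ℤ) * n2 + (j' : ℕ)) % k := by rw [h11]
    rw [Int.mul_add_emod_self_left, Int.mul_add_emod_self_left] at h12
    rw [Int.emod_eq_of_lt (by positivity) (by exact_mod_cast j.2),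
      Int.emod_eq_of_lt (by positivity) (by exact_mod_cast j'.2)] at h12
    exact Fin.ext (by exact_mod_cast h12)

/-- Covering dimension at most `n` gives coloured coverings with `n + 1`. -/
lemma col_of_dimLE {X : Type u} [MetricSpace X] [CompactSpace X] {n : ℕ} (h : DimLE X n) :
    Col (univ : Set X) (n + 1) := by
  classical
  intro ε hε k
  have htb := (isCompact_univ (X := X)).totallyBounded
  obtain ⟨t, htf, ht⟩ := Metric.totallyBounded_iff.1 htb (ε / 2) (by positivity)
  have := htf.to_subtype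
  obtain ⟨N, ⟨e⟩⟩ := Finite.exists_equiv_fin t
  obtain ⟨κ, hκ, V, hVo, hVc, hVU, hVn⟩ := h (Fin N)
    (fun i => Metric.ball ((e.symm i : t) : X) (ε / 2)) (fun i => Metric.isOpen_ball)
    (by
      refine eq_univ_of_forall fun x => ?_
      obtain ⟨y, hy, hxy⟩ := mem_iUnion₂.1 (ht (mem_univ x))
      exact mem_iUnion.2 ⟨e ⟨y, hy⟩, by simpa using hxy⟩)
  have := Fintype.ofFinite κ
  obtain ⟨f, hf⟩ := PartitionOfUnity.exists_isSubordinate isClosed_univ V hVo hVc.ge
  have hf0 : ∀ a x, 0 ≤ f a x := fun a x => f.nonneg a x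
  have hfV : ∀ a x, f a x ≠ 0 → x ∈ V a := fun a x hx =>
    hf a (subset_tsupport _ (Function.mem_support.2 hx))
  have hfsum : ∀ x, ∑ a, f a x = 1 := by
    intro x
    rw [← finsum_eq_sum_of_fintype]
    exact f.sum_eq_one (mem_univ x)
  have hcard : ∀ x, (Finset.univ.filter fun a => f a x ≠ 0).card ≤ n + 1 := by
    intro x
    refine le_trans ?_ (hVn x)
    rw [Nat.card_eq_fintype_card, Fintype.card_subtype]
    refine Finset.card_le_card fun a ha => ?_
    simp only [Finset.mem_filter, Finset.mem_univ, true_and] at ha ⊢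
    exact hfV a x ha
  have hbig : ∀ x, ∃ a, 1 / ((n : ℝ) + 2) < f a x := by
    intro x
    by_contra hcon
    push Not at hcon
    have h1 : ∑ a, f a x ≤ ((n : ℝ) + 1) * (1 / (n + 2)) := by
      calc ∑ a, f a x = ∑ a ∈ Finset.univ.filter (fun a => f a x ≠ 0), f a x := by
            rw [Finset.sum_filter_ne_zero]
        _ ≤ ∑ _a ∈ Finset.univ.filter (fun a => f a x ≠ 0), (1 / ((n : ℝ) + 2)) :=
            Finset.sum_le_sum fun a _ => hcon a
        _ = ((Finset.univ.filter fun a => f a x ≠ 0).card : ℝ) * (1 / (n + 2)) := by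
            rw [Finset.sum_const, nsmul_eq_mul]
        _ ≤ _ := by
            refine mul_le_mul_of_nonneg_right ?_ (by positivity)
            exact_mod_cast hcard x
    rw [hfsum x, mul_one_div, le_div_iff₀ (by positivity)] at h1
    linarith
  set η : ℝ := 1 / ((n : ℝ) + 2) with hη
  have hη0 : 0 < η := by positivity
  let F : Fin k → Finset κ → Set X := fun j S =>
    ⋂ a, {x | (a ∈ S → η * ((j : ℕ) + 1) / k ≤ f a x) ∧ (a ∉ S → f a x ≤ η * (j : ℕ) / k)}
  have hmemF : ∀ j S x, x ∈ F j S ↔ ∀ a, (a ∈ S → η * ((j : ℕ) + 1) / k ≤ f a x) ∧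
      (a ∉ S → f a x ≤ η * (j : ℕ) / k) := by
    intro j S x
    simp only [F, mem_iInter, mem_ofPred_eq]
  have hkpos : ∀ j : Fin k, (0 : ℝ) < k := fun j => by
    have := j.2
    exact_mod_cast (show 0 < k by omega)
  have hlohi : ∀ j : Fin k, η * (j : ℕ) / k < η * ((j : ℕ) + 1) / k := fun j =>
    div_lt_div_of_pos_right (mul_lt_mul_of_pos_left (by linarith) hη0) (hkpos j)
  refine ⟨Finset κ, inferInstance, F, ?_, ?_, ?_, ?_⟩
  · intro j S
    refine IsClosed.isCompact (isClosed_iInter fun a => ?_)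
    by_cases ha : a ∈ S
    · simp only [ha, not_true_eq_false, false_imp_iff, and_true, true_imp_iff]
      exact isClosed_le continuous_const (f a).continuous
    · simp only [ha, not_false_eq_true, false_imp_iff, true_and, true_imp_iff]
      exact isClosed_le (f a).continuous continuous_const
  · intro j S S' hSS
    rw [Set.disjoint_left]
    intro x hx hx'
    rw [hmemF] at hx hx'
    apply hSS
    ext a
    constructor
    · intro ha
      by_contra ha'
      have h1 := (hx a).1 ha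
      have h2 := (hx' a).2 ha'
      linarith [hlohi j]
    · intro ha
      by_contra ha'
      have h1 := (hx' a).1 ha
      have h2 := (hx a).2 ha'
      linarith [hlohi j]
  · intro j S x hx y hy
    rw [hmemF] at hx hy
    obtain ⟨a, ha⟩ := hbig x
    have hlo : η * (j : ℕ) / k ≤ η := by
      rw [div_le_iff₀ (hkpos j)]
      exact mul_le_mul_of_nonneg_left (by exact_mod_cast j.2.le) hη0.le
    have haS : a ∈ S := by
      by_contra haS
      have := (hx a).2 haS
      linarith
    have hpos : 0 < η * ((j : ℕ) + 1) / k := div_pos (by positivity) (hkpos j)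
    have hxV : x ∈ V a := hfV a x (lt_of_lt_of_le hpos ((hx a).1 haS)).ne'
    have hyV : y ∈ V a := hfV a y (lt_of_lt_of_le hpos ((hy a).1 haS)).ne'
    obtain ⟨i, hi⟩ := hVU a
    have h1 := Metric.mem_ball.1 (hi hxV)
    have h2 := Metric.mem_ball.1 (hi hyV)
    have h3 := dist_triangle_right x y ((e.symm i : t) : X)
    linarith
  · intro x _
    have hmiss : ∀ j ∈ {j | x ∉ ⋃ S, F j S}, ∃ a, η * (j : ℕ) / k < f a x ∧
        f a x < η * ((j : ℕ) + 1) / k := by
      intro j hj
      by_contra hcon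
      push Not at hcon
      apply hj
      refine mem_iUnion.2 ⟨Finset.univ.filter fun a => η * ((j : ℕ) + 1) / k ≤ f a x, ?_⟩
      rw [hmemF]
      intro a
      simp only [Finset.mem_filter, Finset.mem_univ, true_and]
      refine ⟨fun h => h, fun h => ?_⟩
      by_contra h'
      push Not at h'
      exact h (hcon a h')
    obtain ⟨a0, -⟩ := hbig x
    have : Nonempty κ := ⟨a0⟩
    choose! g hg using hmiss
    refine le_trans ?_ (hVn x)
    change _ ≤ Nat.card ({a | x ∈ V a} : Set κ)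
    rw [Nat.card_coe_set_eq]
    refine ncard_le_ncard_of_injOn g ?_ ?_ (Set.toFinite _)
    · intro j hj
      have h1 := (hg j hj).1
      have h2 : 0 ≤ η * (j : ℕ) / k := by positivity
      exact hfV _ x (lt_of_le_of_lt h2 h1).ne'
    · intro j hj j' hj' hjj
      have h1 := hg j hj
      have h2 := hg j' hj'
      rw [← hjj] at h2
      have key : ∀ p q : Fin k, p < q → η * ((p : ℕ) + 1) / k ≤ η * (q : ℕ) / k := by
        intro p q hpq
        refine div_le_div_of_nonneg_right (mul_le_mul_of_nonneg_left ?_ hη0.le) (hkpos p).le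
        exact_mod_cast hpq
      rcases lt_trichotomy j j' with h | h | h
      · have := key j j' h
        linarith [h1.2, h2.1]
      · exact h
      · have := key j' j h
        linarith [h2.2, h1.1]

/-- Coloured coverings bound the covering dimension. -/
lemma dimLE_of_col {Z : Type u} [MetricSpace Z] {A : Set Z} (hA : IsCompact A) {m : ℕ}
    (h : Col A m) : DimLE A m := by
  classical
  intro ι _ U hU hcov
  rcases isEmpty_or_nonempty A with hempty | hne
  · exact ⟨Empty, inferInstance, fun a => a.elim, fun a => a.elim,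
      Subsingleton.elim _ _, fun a => a.elim, fun x => isEmptyElim x⟩
  obtain ⟨x0⟩ := hne
  obtain ⟨i0, -⟩ : ∃ i, x0 ∈ U i := mem_iUnion.1 (hcov ▸ mem_univ x0)
  have : CompactSpace A := isCompact_iff_compactSpace.1 hA
  obtain ⟨δ, hδ, hleb⟩ := lebesgue_number_lemma_of_metric (isCompact_univ (X := A)) hU hcov.ge
  obtain ⟨κ, hκ, F, h1, h2, h3, h4⟩ := h (δ / 4) (by positivity) (m + 1)
  obtain ⟨γ, hγ, hgap⟩ := exists_gap F h1 h2
  have hr : 0 < min (δ / 4) (γ / 2) := by positivity
  refine ⟨Fin (m + 1) × κ, inferInstance,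
    fun p => Subtype.val ⁻¹' Metric.thickening (min (δ / 4) (γ / 2)) (F p.1 p.2), ?_, ?_, ?_, ?_⟩
  · intro p
    exact Metric.isOpen_thickening.preimage continuous_subtype_val
  · refine eq_univ_of_forall fun x => ?_
    have hx := h4 x.1 x.2
    obtain ⟨j, hj⟩ : ∃ j : Fin (m + 1), x.1 ∈ ⋃ a, F j a := by
      by_contra hcon
      push Not at hcon
      have : {j : Fin (m + 1) | x.1 ∉ ⋃ a, F j a} = univ := eq_univ_of_forall hcon
      rw [this, ncard_univ, Nat.card_fin] at hx
      omega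
    obtain ⟨a, ha⟩ := mem_iUnion.1 hj
    exact mem_iUnion.2 ⟨(j, a), Metric.self_subset_thickening hr _ ha⟩
  · rintro ⟨j, a⟩
    simp only
    by_cases hemp : (Subtype.val ⁻¹' Metric.thickening (min (δ / 4) (γ / 2)) (F j a) :
        Set A) = ∅
    · exact ⟨i0, by rw [hemp]; exact empty_subset _⟩
    · obtain ⟨x, hx⟩ := nonempty_iff_ne_empty.2 hemp
      obtain ⟨i, hi⟩ := hleb x (mem_univ x)
      refine ⟨i, fun y hy => hi ?_⟩
      rw [Metric.mem_ball, Subtype.dist_eq]
      obtain ⟨x', hx', e1⟩ := Metric.mem_thickening_iff.1 hx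
      obtain ⟨y', hy', e2⟩ := Metric.mem_thickening_iff.1 hy
      have e3 := h3 j a y' hy' x' hx'
      have e4 := dist_triangle4 y.1 y' x' x.1
      rw [dist_comm x' x.1] at e4
      have e5 : min (δ / 4) (γ / 2) ≤ δ / 4 := min_le_left _ _
      linarith
  · intro x
    refine le_trans (Nat.card_le_card_of_injective (β := Fin (m + 1)) (fun p => p.1.1) ?_)
      (Nat.card_fin _).le
    rintro ⟨⟨j, a⟩, hp⟩ ⟨⟨j', a'⟩, hp'⟩ hjj
    simp only at hjj
    subst hjj
    by_cases haa : a = a'
    · subst haa; rfl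
    · exfalso
      obtain ⟨x', hx', e1⟩ := Metric.mem_thickening_iff.1 hp
      obtain ⟨y', hy', e2⟩ := Metric.mem_thickening_iff.1 hp'
      have e3 := hgap j a a' haa x' hx' y' hy'
      have e4 := dist_triangle_left x' y' x.1
      have e5 : min (δ / 4) (γ / 2) ≤ γ / 2 := min_le_right _ _
      linarith

end Pool.Agent.R292.CovDim
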